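import Mathlib
import Pool.Agent.H25.Four
import Pool.Agent.Results.MP_918176_nt.Both

open PowerSeries Finset Pool.Agent.H25.Dis Pool.Agent.H25.Bin

namespace Pool.Agent.Results.MP_8a294c_nt.Strong

/-- The series `1 / (1 - x ^ d) = 1 + x ^ d + x ^ (2 d) + ⋯`. -/
noncomputable def geo (d : ℕ) : ℤ⟦X⟧ := PowerSeries.mk fun j => if d ∣ j then 1 else 0

/-- `c m n`: the coefficient of `x ^ n` in `(1 - x) ^ (-m) ∏ i, (1 - x ^ 2 ^ i) ^ (-m)`;
the factors with `i > n` are `1` modulo `x ^ (n + 1)` and are left out. -/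
noncomputable def c (m n : ℕ) : ℤ :=
  coeff n (geo 1 ^ m * ∏ i ∈ range (n + 1), geo (2 ^ i) ^ m)

/-- `u m n`: the valuation of `q - 1`, where `q` is the odd part of `c m n`. -/
noncomputable def u (m n : ℕ) : ℕ∞ :=
  emultiplicity 2 (c m n / 2 ^ multiplicity 2 (c m n) - 1)

lemma c_eq (m n : ℕ) : c m n = coeff n (F m m) := (coeff_mk n (cc m m)).symm

lemma step {m b : ℕ} {M : ℤ} {r l l' : List ℤ} (hb : b < 2) (hr : C M ∣ (2 * y - 1) ^ m - ev r)
    (h : ∀ a ∈ ad (ub b (ml l r)) (l'.map (-1 * ·)), M ∣ a) (t : ℕ) :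
    coeff (2 * t + b) (ev l * F m m) ≡ coeff t (ev l' * F m m) [ZMOD M] := by
  obtain ⟨D, hD⟩ := H25.Four.dvd_ev _ h
  obtain ⟨E, hE⟩ := hr
  rw [ev_ad, ev_map, ev_ub hb, ev_ml, map_neg, neg_mul, map_one, one_mul,
    add_neg_eq_iff_eq_add] at hD
  conv_lhs => rw [F_eq', ← mul_assoc, ← coeff_U, U_mul hb, eq_add_of_sub_eq hE, mul_add,
    mul_left_comm, map_add, MP_53b42b_nt.Unb.Uc, hD, ← add_assoc, ← mul_add, add_mul, map_add,
    mul_assoc, coeff_C_mul]
  simp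

def G (k : ℕ) (a : ℤ) : Prop :=
  ∃ e < 2 * k + 2, 2 ^ e ∣ a ∧ ¬ 2 ^ (e + 1) ∣ a ∧ ¬ 2 ^ (e + (2 * k + 1)) ∣ a - 2 ^ e

instance (k : ℕ) (a : ℤ) : Decidable (G k a) := by unfold G; infer_instance

lemma auto (k : ℕ) (L : List (List ℤ)) (h1 : [1] ∈ L) (h : ∀ l ∈ L, (¬ 2 ∣ l.sum ∨ G k l.sum) ∧
    ∀ b < 2, ∃ l' ∈ L, (b = 1 → 2 ∣ l'.sum) ∧ ∀ a ∈ ad (ub b (ml l
      ((ml [-1, 2])^[2 ^ (2 * k) - 1] [1]))) (l'.map (-1 * ·)), 2 ^ (4 * k + 2) ∣ a)
    (n : ℕ) (hn : 1 ≤ n) : u (2 ^ (2 * k) - 1) n ≤ (2 * k : ℕ) := by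
  generalize 2 ^ (2 * k) - 1 = m at *
  have hr : (2 * y - 1) ^ m = ev ((ml [-1, 2])^[m] [1]) := by
    clear h
    induction m with
    | zero => simp [ev]
    | succ m ih => rw [Function.iterate_succ_apply', ev_ml, ← ih]; simp [ev]; ring
  have key (n : ℕ) : ∀ l ∈ L, (n = 0 ∧ ¬ 2 ∣ l.sum) ∨ G k (coeff n (ev l * F m m)) := by
    induction n using Nat.strong_induction_on with
    | _ n ih =>
      intro l hl
      rcases n.eq_zero_or_pos with rfl | hn
      · simpa [H25.Four.ev_zero, F_zero] using (h l hl).1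
      obtain ⟨l', h2, h3, h4⟩ := (h l hl).2 _ (Nat.mod_lt n two_pos)
      have := (step (m := m) (Nat.mod_lt n two_pos) (by simp [hr]) h4 (n / 2)).dvd
      rw [Nat.div_add_mod] at this
      rcases ih (n / 2) (by omega) l' h2 with h5 | ⟨e, h5, h6, h7, h8⟩
      · exact (h5.2 (h3 (by omega))).elim
      have d (j) (hj : j ≤ 4 * k + 2) := (pow_dvd_pow 2 hj).trans this
      refine .inr ⟨e, h5, (dvd_sub_right h6).1 (d _ (by omega)), fun h => h7 ?_, fun h => h8 ?_⟩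
      · simpa using dvd_add (d _ (by omega)) h
      · simpa using dvd_add (d _ (by omega)) h
  obtain ⟨e, -, ⟨q, h2⟩, h3, h4⟩ := (key n _ h1).resolve_left (by omega)
  simp only [ev, map_one, mul_zero, add_zero, one_mul, ← c_eq] at h2 h3 h4
  rw [u, multiplicity_eq_of_dvd_of_not_dvd ⟨q, h2⟩ h3, h2, Int.mul_ediv_cancel_left _
    (by positivity)]
  rw [h2, ← mul_sub_one, pow_add, mul_dvd_mul_iff_left (by positivity)] at h4
  exact Order.le_of_lt_add_one (emultiplicity_lt_iff_not_dvd.2 h4)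

def L1 : List (List ℤ) := [
  [0, 6, 16, 32], [0, 6, 32, 32], [0, 6, 48, 32], [0, 10, 16, 32], [0, 10, 48, 32],
  [0, 22, 16, 32], [0, 22, 48, 32], [0, 24], [0, 26, 16, 32], [0, 26, 48, 32], [0, 38, 16, 32],
  [0, 38, 48, 32], [0, 40], [0, 40, 48], [0, 42, 16, 32], [0, 42, 48, 32], [0, 54, 16, 32],
  [0, 54, 48, 32], [0, 58, 16, 32], [0, 58, 48, 32], [1], [63, 18, 16, 32]]

def L2 : List (List ℤ) := [
  [0, 30, 320, 640, 512], [0, 30, 448, 128, 512], [0, 30, 640, 384], [0, 30, 832, 640, 512],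
  [0, 30, 960, 128, 512], [0, 34, 64, 896, 512], [0, 34, 192, 384, 512], [0, 34, 576, 896, 512],
  [0, 34, 704, 384, 512], [0, 94, 320, 640, 512], [0, 94, 448, 128, 512],
  [0, 94, 832, 640, 512], [0, 94, 960, 128, 512], [0, 98, 64, 896, 512], [0, 98, 192, 384, 512],
  [0, 98, 448, 384, 512], [0, 98, 576, 896, 512], [0, 98, 704, 384, 512],
  [0, 158, 320, 640, 512], [0, 158, 448, 128, 512], [0, 158, 832, 640, 512],
  [0, 158, 960, 128, 512], [0, 162, 64, 896, 512], [0, 162, 192, 384, 512],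
  [0, 162, 576, 896, 512], [0, 162, 704, 384, 512], [0, 222, 320, 640, 512],
  [0, 222, 448, 128, 512], [0, 222, 832, 640, 512], [0, 222, 960, 128, 512],
  [0, 226, 64, 896, 512], [0, 226, 192, 384, 512], [0, 226, 576, 896, 512],
  [0, 226, 704, 384, 512], [0, 286, 320, 640, 512], [0, 286, 448, 128, 512],
  [0, 286, 832, 640, 512], [0, 286, 960, 128, 512], [0, 288], [0, 290, 64, 896, 512],
  [0, 290, 192, 384, 512], [0, 290, 576, 896, 512], [0, 290, 704, 384, 512],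
  [0, 350, 320, 640, 512], [0, 350, 448, 128, 512], [0, 350, 832, 640, 512],
  [0, 350, 960, 128, 512], [0, 354, 64, 896, 512], [0, 354, 192, 384, 512],
  [0, 354, 576, 896, 512], [0, 354, 704, 384, 512], [0, 414, 320, 640, 512],
  [0, 414, 448, 128, 512], [0, 414, 832, 640, 512], [0, 414, 960, 128, 512],
  [0, 418, 64, 896, 512], [0, 418, 192, 384, 512], [0, 418, 576, 896, 512],
  [0, 418, 704, 384, 512], [0, 478, 320, 640, 512], [0, 478, 448, 128, 512],
  [0, 478, 832, 640, 512], [0, 478, 960, 128, 512], [0, 480], [0, 480, 256],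
  [0, 482, 64, 896, 512], [0, 482, 192, 384, 512], [0, 482, 576, 896, 512],
  [0, 482, 704, 384, 512], [0, 542, 320, 640, 512], [0, 542, 448, 128, 512],
  [0, 542, 832, 640, 512], [0, 542, 960, 128, 512], [0, 544], [0, 544, 192, 256, 512],
  [0, 546, 64, 896, 512], [0, 546, 192, 384, 512], [0, 546, 576, 896, 512],
  [0, 546, 704, 384, 512], [0, 606, 320, 640, 512], [0, 606, 448, 128, 512],
  [0, 606, 704, 128, 512], [0, 606, 832, 640, 512], [0, 606, 960, 128, 512],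
  [0, 610, 64, 896, 512], [0, 610, 192, 384, 512], [0, 610, 576, 896, 512],
  [0, 610, 704, 384, 512], [0, 670, 320, 640, 512], [0, 670, 448, 128, 512],
  [0, 670, 832, 640, 512], [0, 670, 960, 128, 512], [0, 674, 64, 896, 512],
  [0, 674, 192, 384, 512], [0, 674, 576, 896, 512], [0, 674, 704, 384, 512],
  [0, 734, 320, 640, 512], [0, 734, 448, 128, 512], [0, 734, 704, 128, 512],
  [0, 734, 832, 640, 512], [0, 734, 960, 128, 512], [0, 736], [0, 736, 768],
  [0, 738, 64, 896, 512], [0, 738, 192, 384, 512], [0, 738, 576, 896, 512],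
  [0, 738, 704, 384, 512], [0, 798, 320, 640, 512], [0, 798, 448, 128, 512],
  [0, 798, 832, 640, 512], [0, 798, 960, 128, 512], [0, 802, 64, 896, 512],
  [0, 802, 192, 384, 512], [0, 802, 576, 896, 512], [0, 802, 704, 384, 512],
  [0, 862, 320, 640, 512], [0, 862, 448, 128, 512], [0, 862, 832, 640, 512],
  [0, 862, 960, 128, 512], [0, 866, 64, 896, 512], [0, 866, 192, 384, 512],
  [0, 866, 576, 896, 512], [0, 866, 704, 384, 512], [0, 926, 320, 640, 512],
  [0, 926, 448, 128, 512], [0, 926, 640, 384], [0, 926, 832, 640, 512], [0, 926, 960, 128, 512],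
  [0, 930, 64, 896, 512], [0, 930, 192, 384, 512], [0, 930, 576, 896, 512],
  [0, 930, 704, 384, 512], [0, 990, 320, 640, 512], [0, 990, 448, 128, 512],
  [0, 990, 832, 640, 512], [0, 990, 960, 128, 512], [0, 994, 64, 896, 512],
  [0, 994, 192, 384, 512], [0, 994, 448, 384, 512], [0, 994, 576, 896, 512],
  [0, 994, 704, 384, 512], [1], [1, 128, 896], [1023, 450, 192, 896, 512]]

def r : ℕ → List ℤ
  | 0 => [1]
  | j + 1 => ((ml (ml (r j) (r j)) [-1, 2]).take 22).map (· % 2 ^ 22)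

def nx (b : ℕ) (l : List ℤ) : List ℤ := ((ub b (ml l (r 10))).take 22).map (· % 2 ^ 22)

lemma r_eq (j : ℕ) (hj : j < 11) : C (2 ^ 22) ∣ (2 * y - 1) ^ (2 ^ j - 1) - ev (r j) := by
  induction j with
  | zero => simp [r, ev]
  | succ j ih =>
    obtain ⟨D, hD⟩ := ih (by omega)
    obtain ⟨E, hE⟩ := H25.Four.dvd_ev (M := 2 ^ 22) (ad (ml (ml (r j) (r j)) [-1, 2])
      ((r (j + 1)).map (-1 * ·))) ((by decide +kernel : ∀ j < 10, ∀ a ∈ ad (ml (ml (r j) (r j))
        [-1, 2]) ((r (j + 1)).map (-1 * ·)), 2 ^ 22 ∣ a) j (by omega))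
    rw [ev_ad, ev_map, ev_ml, ev_ml, show ev [-1, 2] = 2 * y - 1 by simp [ev]; ring] at hE
    have : 0 < 2 ^ j := by positivity
    rw [show 2 ^ (j + 1) - 1 = 2 ^ j - 1 + (2 ^ j - 1) + 1 by omega, pow_succ _ (_ + _), pow_add,
      eq_add_of_sub_eq hD]
    exact ⟨E + (2 * y - 1) * D * (C (2 ^ 22) * D + 2 * ev (r j)), by
      rw [map_neg, map_one] at hE; linear_combination hE⟩

theorem result : (∀ k, k = 1 ∨ k = 2 → ∀ n, 1 ≤ n → u (2 ^ (2 * k) - 1) n ≤ (2 * k : ℕ)) ∧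
    ¬ ∀ k, 1 ≤ k → ∀ n, 1 ≤ n → u (2 ^ (2 * k) - 1) n ≤ (2 * k : ℕ) := by
  refine ⟨?_, fun h => ?_⟩
  · rintro k (rfl | rfl)
    exacts [auto 1 L1 (by decide) (by decide +kernel), auto 2 L2 (by decide) (by decide +kernel)]
  have s (b l) (hb : b < 2) := step (l := l) (l' := nx b l) hb (r_eq 10 (by norm_num))
  have h1 := (s 0 [1] two_pos (by decide +kernel) 17).trans
    ((s 1 _ one_lt_two (by decide +kernel) 8).trans ((s 0 _ two_pos (by decide +kernel) 4).trans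
    ((s 0 _ two_pos (by decide +kernel) 2).trans ((s 0 _ two_pos (by decide +kernel) 1).trans
    (s 1 _ one_lt_two (by decide +kernel) 0)))))
  rw [coeff_zero_eq_constantCoeff, map_mul constantCoeff, F_zero, mul_one, H25.Four.ev_zero] at h1
  obtain ⟨q, hq⟩ := (h1.trans (show _ ≡ 2 ^ 11 [ZMOD 2 ^ 22] by decide +kernel)).symm.dvd
  simp only [ev, map_one, mul_zero, add_zero, one_mul, ← c_eq] at hq
  have h2 : c 1023 34 = 2 ^ 11 * (1 + 2 ^ 11 * q) := by linear_combination hq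
  have := h 5 (by norm_num) 34 (by norm_num)
  rw [u, show 2 ^ (2 * 5) - 1 = 1023 from rfl, multiplicity_eq_of_dvd_of_not_dvd ⟨_, h2⟩
    (by omega), h2, Int.mul_ediv_cancel_left _ (by positivity), add_sub_cancel_left] at this
  exact absurd ((le_emultiplicity_of_pow_dvd (dvd_mul_right _ _)).trans this) (by norm_num)

end Pool.Agent.Results.MP_8a294c_nt.Strong
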